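import Pool.Agent.N422.NWS.ALL

/-!
# Maynard's sieve is optimal among all nonnegative sieve weights

Author: helper422.  The methods of Goldston-Pintz-Yıldırım and Maynard-Tao find primes among `n + h`, `h ∈ H`, `#H = k`, by
means of a nonnegative weight `w(n)`, `X < n ≤ 2X`, a combination of level `Q` of functions with periods `d ≤ Q`.  They take
for `w` the square of a divisor sum of level `R = Q^(1/2)`; then the mean number of primes in `n + H` with respect to `w` can
be as large as `(1/2 - o(1)) log k (log Q / log X)`, `k → ∞`.  Is a better weight possible?  For the sums of squares the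
answer is no (`MP_e87c7d_nt.SquareWeightsForTuples`), but a nonnegative function of level `Q` is in general not a sum of
squares of functions of level `Q^(1/2)`.

Here it is proved that for ALL nonnegative weights of level `Q`, and all sets `H` of `k` integers in `[0, X]`, uniformly, the
mean is at most `((1/2 + ε) log k + C) (log Q / log X) + ε'`, where `C` depends only on `ε`.  So Maynard's squares are
asymptotically optimal, with the right constant, among all nonnegative weights.  In particular (`Q ≤ X^(1/2)`) no nonnegative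
weight, of whatever shape, finds `m + 1` primes in `n + H` unless `#H ≥ c exp((4 - ε) m)`, and Maynard's weights do it for
`#H ≥ C exp((4 + ε) m)`: `exp(4m)` is the exact limit of what weights and the theorem of Bombieri and Vinogradov can do.

Proof.  The theorem of Bombieri and Vinogradov (starting files; reduction `Pool.Agent.Y829.RP`, helper829) leads to the mean
of `w(n)` over a period with `n + h` free of the primes `p ≤ Q`, which is compared with the event that `n + h` is free of the
primes `Q^(1/k) < p ≤ Q` which do not divide a difference of two elements of `H` (Mertens; this costs the factor `e^γ`).  At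
each of these primes at most one site is hit, and `w` becomes a nonnegative function `f` of level `1` on a product space
(`NW/AR`, helper92), where the prime `p` has the level `log p / log Q`.  The scales are cut into windows `[u, ρ u)` and the
windows into cells.  Kernels `K_z`: in every window, every site not hit before moves to a new position with a density
`θ_z(X)` which depends on the set `X` of the cells hit; `θ_z = κ c_1(z) + ∑ a_A c_{x_A}(z) e_A(X)` with products `e_A` of
centred indicators, `x_A` the level of `A`, `c_x(z) = cosh (x t) - Re z^x`.  After multiplication by a power of `z` the result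
is a polynomial in `z` (`NWS/MOM`, helper97), `K_z` is the identity at `z = e^(-t)` and, on the circle, an almost adjoint
kernel with the density `(1 - θ_z) / (1 - κ c_1)` (`NWS/SEQ`, helper342).  The kernels of the sites act on a multilinear
extension of `f`, so that two hits at one prime do no harm up to terms `1/p²` (`NWS/MPOL`, `NWS/ABS`, helpers 530, 314).  The
inequality of Jensen (`NW/JEN`, `NWS/GEN`, helpers 427, 499) and `log y ≤ y - 1` give a linear inequality for `f` (`NWS/MULTI`,
helper787; number of hits `NWS/HITS`, helper507).  The coefficients `a_A` can be chosen so that, up to terms of higher order,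
the average of the logarithm of the density is the function which is `ρ - 1` if no cell is hit and `-1` otherwise, minus
`1/2 ∑_A (∏_{h ∈ A} 1/h) / (∑_{h ∈ A} h)` (`NWS/WIN`, helper263, with `NWS/TC`, helper490), and this sum is
`e^(-γ) log ρ + O(1)` (`NWS/EVAL`, helper123): the `e^(-γ)` cancels the loss of `e^γ`.  Summation over the windows
(`NWS/SITE`, `NWS/PS`, helpers 459, 488) gives the theorem; sums over primes `NW/MER`, `NWS/MER2` (helpers 603, 284).
-/

set_option autoImplicit false

open Finset

namespace Pool.Agent.Results.MP_68a45e_nt.AllNonnegativeWeights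

/-- the weight `w(n) = ∑_{d ≤ Q} c_d(n mod d)` -/
noncomputable def weight (Q : ℕ) (c : ℕ → ℕ → ℝ) (n : ℕ) : ℝ := ∑ d ∈ Icc 1 Q, c d (n % d)

/-- `s(d) = ∑_{a mod d} |c_d(a)|` -/
noncomputable def size (c : ℕ → ℕ → ℝ) (d : ℕ) : ℝ := ∑ a ∈ range d, |c d a|

/-- the mass of the weight on `(X, 2X]` -/
noncomputable def mass (X Q : ℕ) (c : ℕ → ℕ → ℝ) : ℝ := ∑ n ∈ Ioc X (2 * X), weight Q c n

/-- the level `Q` is at most `X^(1/2) (log X)^(-B/2)`, `w ≥ 0`, `∑_{d ≤ Q} s(d)² / d ≤ (log X)^K` and the mass is at least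
`X / (log X)^K` -/
def Good (K B X Q : ℕ) (c : ℕ → ℕ → ℝ) : Prop :=
  1 ≤ Q ∧ (Q : ℝ) ^ 2 * Real.log X ^ B ≤ X ∧ (∀ n, 0 ≤ weight Q c n) ∧
    ∑ d ∈ Icc 1 Q, size c d ^ 2 / d ≤ Real.log X ^ K ∧ X / Real.log X ^ K ≤ mass X Q c

/-- the number of `h ∈ H` with `n + h` prime -/
noncomputable def primesIn (H : Finset ℕ) (n : ℕ) : ℝ := ((H.filter (fun h => (n + h).Prime)).card : ℝ)

/-- For every `ε > 0` there are `C ≥ 0` and `c₀ > 0` such that:

(1) for every `k ≥ 1`, all `K` and `ε' > 0` there are `B`, `X₀` such that for `X ≥ X₀`, every `Good` weight `w` of level `Q` and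
every set `H` of `k` integers in `[0, X]`, the mean number of primes `n + h`, `h ∈ H`, over `X < n ≤ 2X` with respect to `w`,
is at most `((1/2 + ε) log k + C) (log Q / log X) + ε'`;

(2) for all `k`, `m ≥ 1` with `k ≤ c₀ exp((4 - ε) m)` and all `K` there are `B`, `X₀` such that for `X ≥ X₀`, every `Good`
weight `w` and every set `H` of `k` integers in `[0, X]`, this mean is smaller than `m`. -/
theorem result : ∀ ε : ℝ, 0 < ε → ∃ C c₀ : ℝ, 0 ≤ C ∧ 0 < c₀ ∧
    (∀ k : ℕ, 1 ≤ k → ∀ (K : ℕ) (ε' : ℝ), 0 < ε' → ∃ B X₀ : ℕ, ∀ X : ℕ, X₀ ≤ X → ∀ (Q : ℕ) (c : ℕ → ℕ → ℝ),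
      Good K B X Q c → ∀ H : Finset ℕ, H.card = k → (∀ h ∈ H, h ≤ X) →
        ∑ n ∈ Ioc X (2 * X), weight Q c n * primesIn H n ≤
          (((1 / 2 + ε) * Real.log k + C) * (Real.log Q / Real.log X) + ε') * mass X Q c) ∧
    (∀ k m : ℕ, 1 ≤ m → (k : ℝ) ≤ c₀ * Real.exp ((4 - ε) * m) → ∀ K : ℕ, ∃ B X₀ : ℕ, ∀ X : ℕ, X₀ ≤ X →
      ∀ (Q : ℕ) (c : ℕ → ℕ → ℝ), Good K B X Q c → ∀ H : Finset ℕ, H.card = k → (∀ h ∈ H, h ≤ X) →
        ∑ n ∈ Ioc X (2 * X), weight Q c n * primesIn H n < m * mass X Q c) := by
  intro ε hε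
  obtain ⟨C, hC, hmain⟩ := Pool.Agent.N422.NWS.mainAll ε hε
  -- the second part uses a smaller parameter
  obtain ⟨ε2, hε2⟩ : ∃ ε2 : ℝ, ε2 = ε / 8 := ⟨_, rfl⟩
  have hε20 : 0 < ε2 := by rw [hε2]; positivity
  obtain ⟨C2, hC2, hmain2⟩ := Pool.Agent.N422.NWS.mainAll ε2 hε20
  obtain ⟨A, hA⟩ : ∃ A : ℝ, A = 1 / 2 + ε2 := ⟨_, rfl⟩
  have hA0 : 0 < A := by rw [hA]; positivity
  -- `2 / A ≥ 4 - ε`
  have hAi : 4 - ε ≤ 2 / A := by
    rw [le_div_iff₀ hA0, hA, hε2]
    nlinarith [sq_nonneg ε]
  refine ⟨C, Real.exp (-((C2 + 2) / A)), hC, Real.exp_pos _, ?_, ?_⟩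
  · intro k hk K ε' hε'
    obtain ⟨B, X₀, h⟩ := hmain k hk K ε' hε'
    refine ⟨B, X₀, fun X hX Q c hc H hH hHX => ?_⟩
    obtain ⟨g1, g2, g3, g4, g5⟩ := hc
    exact h X hX Q g1 g2 c g3 g4 g5 H hH hHX
  · intro k m hm hkm K
    obtain ⟨B, X₀, h⟩ := hmain2 (max k 1) (le_max_right _ _) K (1 / 4) (by norm_num)
    obtain ⟨B', X₀', h'⟩ : ∃ B' X₀' : ℕ, B' = max B 1 ∧ X₀' = max X₀ 3 := ⟨_, _, rfl, rfl⟩
    refine ⟨B', X₀', fun X hX Q c hc H hH hHX => ?_⟩
    have hX3 : 3 ≤ X := (le_max_right _ _).trans (h'.2 ▸ hX)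
    have hXr : (0 : ℝ) < X := by exact_mod_cast (by omega : 0 < X)
    have hL1 : 1 ≤ Real.log X := by
      rw [Real.le_log_iff_exp_le hXr]
      have := Real.exp_one_lt_d9
      have : (3 : ℝ) ≤ X := by exact_mod_cast hX3
      linarith
    obtain ⟨g1, g2, g3, g4, g5⟩ := hc
    have hmass : 0 < mass X Q c := lt_of_lt_of_le (by positivity) g5
    rcases Nat.eq_zero_or_pos k with hk0 | hk0
    · -- no shifts
      have hHe : H = ∅ := by
        rw [← card_eq_zero, hH, hk0]
      have h1 : ∑ n ∈ Ioc X (2 * X), weight Q c n * primesIn H n = 0 := by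
        apply sum_eq_zero
        intro n _
        rw [hHe]
        unfold primesIn
        simp
      rw [h1]
      have : (0 : ℝ) < m := by exact_mod_cast hm
      positivity
    · have hmx : max k 1 = k := max_eq_left hk0
      rw [hmx] at h
      have hB : (Q : ℝ) ^ 2 * Real.log X ^ B ≤ X := by
        have e1 : Real.log X ^ B ≤ Real.log X ^ B' := pow_le_pow_right₀ hL1 (by rw [h'.1]; exact le_max_left _ _)
        exact (mul_le_mul_of_nonneg_left e1 (sq_nonneg (Q : ℝ))).trans g2
      have h1 := h X ((le_max_left _ _).trans (h'.2 ▸ hX)) Q g1 hB c g3 g4 g5 H hH hHX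
      refine lt_of_le_of_lt h1 ?_
      have hmr : (1 : ℝ) ≤ m := by exact_mod_cast hm
      refine mul_lt_mul_of_pos_right ?_ hmass
      have hQ1 : (1 : ℝ) ≤ Q := by exact_mod_cast g1
      have hlQ : Real.log Q / Real.log X ≤ 1 / 2 := by
        rw [div_le_iff₀ (by linarith)]
        have h5 : Real.log ((Q : ℝ) ^ 2) ≤ Real.log X := by
          apply Real.log_le_log (by positivity)
          have e1 : (1 : ℝ) ≤ Real.log X ^ B := one_le_pow₀ hL1
          nlinarith [sq_nonneg (Q : ℝ)]
        rw [Real.log_pow] at h5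
        push_cast at h5
        linarith
      have hlQ0 : 0 ≤ Real.log Q / Real.log X := div_nonneg (Real.log_natCast_nonneg Q) (by linarith)
      have hkr : (0 : ℝ) < k := by exact_mod_cast hk0
      have hlk : Real.log k ≤ -((C2 + 2) / A) + 2 / A * m := by
        have e1 : (k : ℝ) ≤ Real.exp (-((C2 + 2) / A) + 2 / A * m) := by
          rw [Real.exp_add]
          refine hkm.trans (mul_le_mul_of_nonneg_left ?_ (Real.exp_pos _).le)
          apply Real.exp_le_exp.2
          exact mul_le_mul_of_nonneg_right hAi (by linarith)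
        rw [← Real.log_exp (-((C2 + 2) / A) + 2 / A * m)]
        exact Real.log_le_log hkr e1
      have hlk0 : 0 ≤ Real.log k := Real.log_natCast_nonneg k
      have h6 : A * Real.log k ≤ 2 * m - (C2 + 2) := by
        have := mul_le_mul_of_nonneg_left hlk hA0.le
        refine this.trans (le_of_eq ?_)
        field_simp
        ring
      have h7 : ((1 / 2 + ε2) * Real.log k + C2) * (Real.log Q / Real.log X) ≤
          ((1 / 2 + ε2) * Real.log k + C2) * (1 / 2) := by
        apply mul_le_mul_of_nonneg_left hlQ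
        rw [← hA]
        positivity
      rw [← hA] at h7
      rw [← hA]
      linarith

end Pool.Agent.Results.MP_68a45e_nt.AllNonnegativeWeights
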