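import Pool.Agent.N666.PS.Shifts
import Pool.Agent.H560R3.GB.Defs

/-!
# Prime tuples: all the shifts near the values of generalised polynomials

Let `f i (t) = ∑ a_x t ^ x` (`i = 1, ..., k`) be finite sums of real powers of `t` (with arbitrary real exponents)
whose largest exponents `c i > 1` are not integers and have positive coefficients, for instance `t ^ (c i)`. For
almost all vectors `n` in the box `1 ≤ n i ≤ X i`, where `(X i) ^ (c i)` is about `N`, the formula of Hardy and
Littlewood for prime tuples holds for the primes up to `N` and ALL the vectors of shifts `b` whose entries are at a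
distance of at most `log ^ W N` from `t i + f i (n i)`, for arbitrary translations `t i ≤ B N`.

Definitions used: `Pool.Agent.H373R2.T7.singZ a z`: the partial product over the primes `p ≤ z` of
`(1 - ν(p) / p) / (1 - 1 / p) ^ (k + 1)`, where `ν(p)` is the number of `r < p` for which `p` divides
`r (r + a 1) ... (r + a k)`; `Pool.Agent.H373R2.T7.tupleCount a N`: the sum of
`log p * ∏ i, log (p + a i)` over the primes `p ≤ N` for which all `p + a i` are primes;
`Pool.Agent.H373R2.T7.Admissible a`: for every prime `p` there is an `r` such that `p` divides neither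
`r` nor any `r + a i`; `Pool.Agent.H560R3.GB.primeTuples a N`: the number of primes `p ≤ N` for which
all `p + a i` are primes.
-/

set_option autoImplicit false

namespace Pool.Agent.Results.MP_68a45e_nt.PiatetskiShapiroShifts

open Finset Pool.Agent.H560R3.GB
open Pool.Agent.H373R2.T7 (singZ tupleCount Admissible)

/-- The formula of Hardy and Littlewood for the shifts `b 1, ..., b k` and the primes up to `N`: the
singular series converges, its sum `S` predicts the weighted number of prime tuples with an error of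
at most `N / log ^ U N`, and, if the shifts are admissible, `S` is positive and `S N / log ^ (k + 1) N`
predicts the number of prime tuples with a relative error of at most `ε`. -/
def Holds {k : ℕ} (ε : ℝ) (U N : ℕ) (b : Fin k → ℕ) : Prop :=
  ∃ S : ℝ, Filter.Tendsto (fun z => singZ (fun i => (b i : ℤ)) z) Filter.atTop (nhds S) ∧
    |tupleCount (fun i => (b i : ℤ)) N - S * N| ≤ (N : ℝ) / Real.log N ^ U ∧
    (Admissible (fun i => (b i : ℤ)) → 0 < S ∧
      |(primeTuples b N : ℝ) - S * (N / Real.log N ^ (k + 1))| ≤ ε * (S * (N / Real.log N ^ (k + 1))))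

/-- The generalised polynomial with the exponents `x ∈ F` and the coefficients `a x`. -/
noncomputable def f (F : Finset ℝ) (a : ℝ → ℝ) (t : ℝ) : ℝ := ∑ x ∈ F, a x * t ^ x

open Classical in
/-- The number of vectors `n`, with `1 ≤ n i ≤ X i`, for which `Holds` fails for some vector `b` of natural numbers
with `|b i - t i - f i (n i)| ≤ log ^ W N` for all `i`. -/
noncomputable def exceptions {k : ℕ} (F : Fin k → Finset ℝ) (a : Fin k → ℝ → ℝ) (ε : ℝ) (U W N : ℕ)
    (X t : Fin k → ℕ) : ℕ :=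
  ((Fintype.piFinset (fun i => Icc 1 (X i))).filter
    (fun n : Fin k → ℕ => ∃ b : Fin k → ℕ, (∀ i, |(b i : ℝ) - t i - f (F i) (a i) (n i)| ≤ Real.log N ^ W) ∧
      ¬ Holds ε U N b)).card

lemma first (k r B C U V : ℕ) (hk : 1 ≤ k) (hr : 1 ≤ r) (ε : ℝ) (hε : 0 < ε) :
    ∃ N₀ : ℕ, ∀ N : ℕ, N₀ ≤ N → ∀ (x : Fin k → ℕ) (s : Fin k → ℕ → ℕ),
      (∀ i, 1 ≤ x i) → (∀ i, ∀ m ∈ Icc 1 (x i), s i m ≤ B * N) →
      (∀ i, (Pool.Agent.H373R2.T7.energy r (x i) (fun m => (s i m : ℤ)) : ℝ) * N ≤
        Real.log N ^ C * (x i : ℝ) ^ (2 * r)) →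
      ∀ S : Finset (Fin k → ℕ), S ⊆ Fintype.piFinset (fun i => Icc 1 (x i)) →
      (∀ m ∈ S, ¬ Holds ε V N (fun i => s i (m i))) → (S.card : ℝ) ≤ (∏ i, (x i : ℝ)) / Real.log N ^ U := by
  classical
  obtain ⟨c, hc, hlow⟩ := Pool.Agent.H373R2.T7.singZ_low k
  obtain ⟨N₀, h0⟩ := ftuples_full k r B C (U + V + 1) hk hr
  obtain ⟨N₁, h1⟩ := tuple_transfer k B c ε hc hε
  obtain ⟨N₂, h2⟩ := Pool.Agent.H373R2.T7.ev_L' 1
  refine ⟨N₀ + N₁ + N₂ + 3, fun N hN x s hx hs hE S hS1 hS2 => ?_⟩
  have hL := h2 N (by omega)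
  have hL0 : 0 < Real.log (N : ℝ) := by linarith
  have hN0 : (0 : ℝ) ≤ N := Nat.cast_nonneg _
  have h3 := h0 N (by omega) x s hx hs hE
  have hp0 : 0 ≤ ∏ i, (x i : ℝ) := prod_nonneg fun i _ => Nat.cast_nonneg _
  refine le_trans ?_ (h3.trans ?_)
  · have hsub : S ⊆
        (Fintype.piFinset (fun i => Icc 1 (x i))).filter (fun m : Fin k → ℕ =>
        ¬ ∃ S : ℝ, Filter.Tendsto (fun z => singZ (fun i => (s i (m i) : ℤ)) z) Filter.atTop (nhds S) ∧
        |tupleCount (fun i => (s i (m i) : ℤ)) N - S * N| ≤ (N : ℝ) / Real.log N ^ (U + V + 1)) := by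
      intro m hm
      rw [mem_filter]
      refine ⟨hS1 hm, fun hcon => hS2 m hm ?_⟩
      obtain ⟨S, hS, hS2⟩ := hcon
      refine ⟨S, hS, hS2.trans ?_, fun hadm => ?_⟩
      · apply div_le_div_of_nonneg_left hN0 (by positivity)
        exact pow_le_pow_right₀ hL (by omega)
      · have hcS : c ≤ S := ge_of_tendsto' hS (hlow _ hadm)
        refine ⟨lt_of_lt_of_le hc hcS, ?_⟩
        apply h1 N (by omega) (fun i => s i (m i)) (fun i => ?_) S hcS
        · refine hS2.trans ?_
          apply div_le_div_of_nonneg_left hN0 hL0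
          exact le_self_pow₀ hL (by omega)
        · exact hs i (m i) (Fintype.mem_piFinset.1 (hS1 hm) i)
    exact_mod_cast card_le_card hsub
  · apply div_le_div_of_nonneg_left hp0 (by positivity)
    exact pow_le_pow_right₀ hL (by omega)

/-- Let `k ≥ 1` and let `f i (t) = ∑ x ∈ F i, a i x * t ^ x` (`i = 1, ..., k`), where `F i` is a finite set of real
exponents whose largest element `c i` is larger than `1` and not an integer, and where `a i (c i) > 0`. Let `B`, `C`,
`W`, `U` and `ε > 0` be fixed, and let `N` be large. Let `N / log ^ C N ≤ (X i) ^ (c i) ≤ B N` and `t i ≤ B N`.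

Then all but at most a proportion `1 / log ^ U N` of the vectors `n` of integers in the box `1 ≤ n i ≤ X i` have the
following property: for ALL the vectors `b` of natural numbers with `|b i - t i - f i (n i)| ≤ log ^ W N`, the
formula of Hardy and Littlewood holds for the prime tuples `p, p + b 1, ..., p + b k` with `p ≤ N`. -/
theorem result (k : ℕ) (hk : 1 ≤ k) (F : Fin k → Finset ℝ) (a : Fin k → ℝ → ℝ) (c : Fin k → ℝ)
    (hcF : ∀ i, c i ∈ F i) (hmax : ∀ i, ∀ x ∈ F i, x ≤ c i) (hac : ∀ i, 0 < a i (c i)) (hc : ∀ i, 1 < c i)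
    (hcn : ∀ i, ∀ m : ℕ, c i ≠ m) (B C W U : ℕ) (ε : ℝ) (hε : 0 < ε) :
    ∃ N₀ : ℕ, ∀ N : ℕ, N₀ ≤ N → ∀ (X : Fin k → ℕ), (∀ i, (X i : ℝ) ^ (c i) ≤ B * N) →
      (∀ i, (N : ℝ) ≤ Real.log N ^ C * (X i : ℝ) ^ (c i)) → ∀ t : Fin k → ℕ, (∀ i, t i ≤ B * N) →
      (exceptions F a ε U W N X t : ℝ) ≤ (∏ i, (X i : ℝ)) / Real.log N ^ U := by
  classical
  obtain ⟨N₀, h⟩ := Pool.Agent.N666.PS.tuples_near F a c
    (fun i => ⟨hcF i, hmax i, hac i, hc i, hcn i⟩) B C W U (Holds ε U)
    (fun r B C V hr => first k r B C V U hk hr ε hε)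
  refine ⟨N₀, fun N hN X hX1 hX2 t ht => ?_⟩
  unfold exceptions
  refine h N hN X hX1 hX2 t ht _ (filter_subset _ _) ?_
  intro n hn
  rw [mem_filter] at hn
  obtain ⟨b, hb1, hb2⟩ := hn.2
  refine ⟨b, fun i => ?_, hb2⟩
  rw [Pool.Agent.N666.PS.gp_zero]
  exact hb1 i

end Pool.Agent.Results.MP_68a45e_nt.PiatetskiShapiroShifts
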