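import Mathlib
import Pool.Agent.N646.RO.All

/-!
# Linear equations in vectors of shifts with the expected number of prime tuples, at every scale

For a vector `h` of `k` integers let `𝔖(h) > 0` be the Hardy-Littlewood singular series of the pattern
`0, h_1, ..., h_k` (`h_0 = 0`), and call `h` of the right order at `x` (with the constant `κ > 0`) if at least
`κ 𝔖(h) x / (log x) ^ (k + 1)` of the integers `1 ≤ n ≤ x` make `n, n + h_1, ..., n + h_k` all prime.

Theorem. Let `k ≥ 1` and `p ≥ 2` with `(k + 1) (18 - 5 p) < 18` (every `p ≥ 4`, for all `k`; `p = 3` for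
`k ≤ 4`, `p = 2` for `k = 1`) and let `a_1, ..., a_p` be nonzero integers. There are `N, B ≥ 1` and `c > 0`
such that for every `λ > 0` there is `κ > 0` with: for all large `x`, all `λ log x ≤ T ≤ x / B` and ALL
vectors `v` of `k` multiples of `N` with `B |v_j| ≤ T`, the equation `a_1 h^1 + ... + a_p h^p = v` has at least
`c T ^ ((p - 1) k)` solutions in vectors `h^i` with coordinates in `(-T, T)` which are all of the right order
at `x`.

So at every scale, down to any small multiple of the average distance of consecutive primes, the set of the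
vectors for which the Hardy-Littlewood lower bound holds up to a constant is so rich that it solves every
linear equation in at least four vectors, in every dimension `k`.

Proof. (1) The coloured Maynard-Tao theorem with the constant `18 / 5` and the right order of magnitude
(starting files) together with moment bounds for the number of integers without small prime factors in
intervals of length `log x` shows that for most configurations of `t` classes of `K` shifts there are
`5 t / 18` classes with a transversal all of whose `(k + 1)`-element subsets have the right order: for a bad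
tuple the configurations containing it contribute little, by Cauchy-Schwarz. (2) Random sampling, a
hypergraph box lemma and hypergraph containers give a set `A` of multiples of `M` in `[0, T)` of relative
density `5 / 18 - ε` almost all of whose `(k + 1)`-tuples have the right order. (3) A density increment and
Kneser's theorem in windows (as in `MP_8923e7_nt.AllBoxesOfShifts`) give the equations. (The companion
`MP_8923e7_nt.LinearEquationsOfShifts` has smaller `T` and exact patterns, but loses powers of the logarithm.)

Lean parts by helpers 646, 592, 692, 415, 2, 769, 738, 595, 591, 647.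
-/

set_option autoImplicit false

namespace Pool.Agent.Results.MP_68a45e_nt.RightOrderEquations

open Filter Finset

/-- the number of the `1 ≤ n ≤ x` such that `n, n + h_1, ..., n + h_k` are all (positive) primes -/
def primeCount {k : ℕ} (h : Fin k → ℤ) (x : ℕ) : ℕ :=
  ((Icc 1 x).filter (fun n : ℕ =>
    ∀ i, ((n : ℤ) + (Fin.cons 0 h : Fin (k + 1) → ℤ) i).toNat.Prime)).card

/-- the number of residue classes modulo `p` occupied by `0, h_1, ..., h_k` -/
def nu {k : ℕ} (h : Fin k → ℤ) (p : ℕ) : ℕ :=
  (univ.image (fun i => (Fin.cons 0 h : Fin (k + 1) → ℤ) i % (p : ℤ))).card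

/-- the factor at `p` of the singular series of `0, h_1, ..., h_k` -/
noncomputable def loc {k : ℕ} (h : Fin k → ℤ) (p : ℕ) : ℝ :=
  (1 - (nu h p : ℝ) / p) / (1 - 1 / (p : ℝ)) ^ (k + 1)

/-- the singular series of `0, h_1, ..., h_k` converges to some `S > 0`, and at least
`κ S x / (log x) ^ (k + 1)` of the `n ≤ x` make all `n, n + h_1, ..., n + h_k` prime -/
def RightOrder {k : ℕ} (κ : ℝ) (x : ℕ) (h : Fin k → ℤ) : Prop :=
  ∃ S : ℝ, 0 < S ∧ HasProd (fun p : Nat.Primes => loc h p) S ∧
    κ * S * ((x : ℝ) / (Real.log x) ^ (k + 1)) ≤ (primeCount h x : ℝ)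

/-- the solutions of `a_1 h^1 + ... + a_p h^p = v` in vectors `h^i` with coordinates in `(-T, T)` -/
noncomputable def solutions {k p : ℕ} (a : Fin p → ℤ) (v : Fin k → ℤ) (T : ℕ) :
    Finset (Fin p → Fin k → ℤ) :=
  (Fintype.piFinset (fun _ : Fin p => Fintype.piFinset (fun _ : Fin k => Ioo (-(T : ℤ)) T))).filter
    (fun h => ∀ j, ∑ i, a i * h i j = v j)

open Classical in
/-- **Linear equations in vectors with the right order of magnitude.** -/
theorem result : ∀ k p : ℕ, 1 ≤ k → 2 ≤ p → ((k : ℤ) + 1) * (18 - 5 * p) < 18 →
    ∀ a : Fin p → ℤ, (∀ i, a i ≠ 0) → ∃ N B : ℕ, 1 ≤ N ∧ 1 ≤ B ∧ ∃ c : ℝ, 0 < c ∧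
      ∀ lam : ℝ, 0 < lam → ∃ κ : ℝ, 0 < κ ∧ ∀ᶠ x : ℕ in atTop, ∀ T : ℕ,
        lam * Real.log x ≤ T → B * T ≤ x →
        ∀ v : Fin k → ℤ, (∀ j, (N : ℤ) ∣ v j) → (∀ j, B * |v j| ≤ T) →
          c * (T : ℝ) ^ ((p - 1) * k) ≤
            (((solutions a v T).filter (fun h => ∀ i, RightOrder κ x (h i))).card : ℝ) := by
  intro k p _ hp hk a ha
  obtain ⟨N, B, hN, hB, c, hc, h⟩ := Pool.Agent.N646.RO.equations_final k p a ha hp hk
  refine ⟨N, B, hN, hB, c, hc, fun lam hlam => ?_⟩
  obtain ⟨κ, hκ, h'⟩ := h lam hlam
  refine ⟨κ, hκ, ?_⟩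
  filter_upwards [h'] with x hx T hT hTx v hv1 hv2
  refine (hx T hT hTx v hv1 hv2).trans ?_
  rw [Nat.cast_le]
  apply card_le_card
  intro y hy
  rw [mem_filter] at hy
  rw [mem_filter, solutions, mem_filter]
  exact ⟨⟨hy.1, hy.2.2⟩, hy.2.1⟩

end Pool.Agent.Results.MP_68a45e_nt.RightOrderEquations
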