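import Mathlib
import Pool.Agent.N679.TR.Fix
import Pool.Agent.N679.TR.Thi
import Pool.Agent.N679.TR.Bxt

/-!
# The prime tuples conjecture outside thin sets of shifts, or more than `θ m` of any `m` linear forms

Let `θ > 0`. At least one of (A), (B) holds.

(A) For all `k ≥ 1` with `18 k θ < 5 (k + 1)` there are `C`, `M`, `δ > 0` and `E` such that

1. every finite set `V` of multiples of `M` has at most `E |V| ^ (k + 1 - δ)` tuples `(y_0, ..., y_k)` of different
   elements for which `(y_1 - y_0, ..., y_k - y_0)` is not good;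
2. in every box of side `T` (wherever it lies) at most `E T ^ (k - δ)` of the vectors of multiples of `M` are not
   good; the same for the vectors `c + N t` for every multiple `N` of `M` and every vector `c` of multiples of `M`.

Here `h` is good if for arbitrarily large `x` and for every set `J ⊆ {0, ..., k}`, at least `x / (log x) ^ C` of the
numbers `1 ≤ n ≤ x` make `n + h_i` prime exactly for `i ∈ J` (`h_0 = 0`).

(B) For all `m, q ≥ 1` there are `C` and `B` such that for all forms `s_i n + c_i`, `i ≤ m`, with `s_i > 0` and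
`gcd (c_i, q) = 1` there are multiples `e_i` of `q`, `|e_i| ≤ C s_i`, such that more than `θ m` of the `m` different
forms `s_i n + (c_i + e_i)` are simultaneously prime infinitely often, namely for `N / (log N) ^ B` of the `n ≤ N`
for arbitrarily large `N`; moreover the same holds for EVERY large `N`, uniformly in all forms with
`0 < |s_i| ≤ A`, `|c_i| ≤ N / 2` with values `≥ N / 20` on `[N / 16, N / 2]`.

(B) is known for `θ < 5/18`, for forms with equal slopes and `q = 1` (`BoundedPerturbation` in the starting files)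
and for bounded multiples of the forms (`BoundedAffine` in the starting files); the point of (B) are forms with
different slopes, which are kept, and classes modulo `q`. For `θ = 5/18`, the first case in which (B) is not known, (A) is the prime tuples
conjecture for ALL `k` and all vectors of multiples of `M(k)` outside thin sets. Further examples: `θ = 2/7`,
`k ≤ 34`; `θ = 3/10`, `k ≤ 12`; `θ = 1/3`, `k ≤ 4`; `θ = 2/5`, `k ≤ 2`; `θ = 1/2`, `k = 1`.

Proof. If (B) fails, then at arbitrarily large scales the coloured Maynard-Tao theorem for translates holds with the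
constant `lam = 18 θ / 5 < (k + 1) / k` (see `MP_6a20cc_nt.TuplesOrForms`), so that it selects all of `k + 1`
classes. Hence the bad `(k + 1)`-tuples of a set contain no product of large sets, up to few tuples for which a
pattern fails, and Erdős' theorem on complete `(k + 1)`-partite hypergraphs gives the power saving (`Erd.lean`,
`Thi.lean`); boxes follow by translation (`Bxt.lean`).

The coloured Maynard-Tao theorem with the constant `18/5` (`Pool.Agent.Y827.RO.lamRD`) is from the starting files;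
the passage to all patterns is from `Pool.Agent.N646.AC` (helper646).
-/

set_option autoImplicit false

namespace Pool.Agent.Results.MP_68a45e_nt.ThinExceptionsOrForms

open Filter Finset

/-- the number of `1 ≤ n ≤ x` such that `n + h_i` is prime exactly for `i ∈ J`, where `h_0 = 0` -/
def pattern {k : ℕ} (h : Fin k → ℤ) (J : Finset (Fin (k + 1))) (x : ℕ) : ℕ :=
  ((Icc 1 x).filter (fun n : ℕ =>
    ∀ i, ((n : ℤ) + (Fin.cons 0 h : Fin (k + 1) → ℤ) i).toNat.Prime ↔ i ∈ J)).card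

/-- for arbitrarily large `x` every pattern of primes and non-primes occurs at least `x / (log x) ^ C` times in
`n, n + h_1, ..., n + h_k`, `1 ≤ n ≤ x` -/
def Good {k : ℕ} (C : ℕ) (h : Fin k → ℤ) : Prop :=
  ∃ᶠ x : ℕ in atTop, ∀ J : Finset (Fin (k + 1)), (x : ℝ) / (Real.log x) ^ C ≤ (pattern h J x : ℝ)

/-- the number of the injective `(k + 1)`-tuples of elements of `V` whose differences are not good -/
noncomputable def badTuples (k C : ℕ) (V : Finset ℤ) : ℕ :=
  Set.ncard {y : Fin (k + 1) → ℤ | (∀ i, y i ∈ V) ∧ Function.Injective y ∧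
    ¬ Good C (fun j : Fin k => y j.succ - y 0)}

open Classical in
/-- the number of the vectors `c + N t`, `t ∈ [0, T) ^ k`, which are not good -/
noncomputable def badInBox {k : ℕ} (C : ℕ) (c : Fin k → ℤ) (N T : ℕ) : ℕ :=
  ((Fintype.piFinset (fun _ : Fin k => Ico 0 (T : ℤ))).filter
    (fun t => ¬ Good C (fun j => c j + N * t j))).card

/-- the number of `1 ≤ n ≤ N` for which all `s_i n + c_i`, `i ∈ I`, are prime -/
def common {m : ℕ} (s c : Fin m → ℤ) (I : Finset (Fin m)) (N : ℕ) : ℕ :=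
  ((Icc 1 N).filter (fun n : ℕ => ∀ i ∈ I, (s i * n + c i).toNat.Prime)).card

/-- for every `i`: `0 < |s_i| ≤ A`, `|c_i| ≤ N / 2`, and `s_i t + c_i ≥ N / 20` for `t = N / 16` and `t = N / 2`,
hence for all `t` between -/
def Window {m : ℕ} (A N : ℕ) (s c : Fin m → ℤ) : Prop := ∀ i, s i ≠ 0 ∧ |s i| ≤ A ∧ 2 * |c i| ≤ N ∧
  (N : ℝ) / 20 ≤ s i * (N / 16) + c i ∧ (N : ℝ) / 20 ≤ s i * (N / 2) + c i

/-- **The prime tuples conjecture outside thin sets of shifts, or more than `θ m` of any `m` linear forms up to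
bounded changes of the constant terms.** -/
theorem result (θ : ℝ) (hθ : 0 < θ) :
    -- (A)
    (∀ k : ℕ, 1 ≤ k → 18 * k * θ < 5 * (k + 1) → ∃ C M : ℕ, 1 ≤ M ∧ ∃ δ E : ℝ, 0 < δ ∧
      (∀ V : Finset ℤ, (∀ x ∈ V, (M : ℤ) ∣ x) →
        (badTuples k C V : ℝ) ≤ E * (V.card : ℝ) ^ ((k : ℝ) + 1 - δ)) ∧
      ∀ N : ℕ, 1 ≤ N → M ∣ N → ∀ T : ℕ, 1 ≤ T → ∀ c : Fin k → ℤ, (∀ j, (M : ℤ) ∣ c j) →
        (badInBox C c N T : ℝ) ≤ E * (T : ℝ) ^ ((k : ℝ) - δ)) ∨
    -- (B)
    (∀ m q : ℕ, 1 ≤ m → 1 ≤ q → ∃ C B : ℕ,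
      (∀ s c : Fin m → ℤ, (∀ i, IsCoprime (c i) (q : ℤ)) → (∀ i, 0 < s i) →
        ∃ (e : Fin m → ℤ) (I : Finset (Fin m)), θ * m < I.card ∧
          (∀ i, (q : ℤ) ∣ e i ∧ |e i| ≤ C * s i) ∧
          (∀ i j, i ≠ j → (s i, c i + e i) ≠ (s j, c j + e j)) ∧
          ∃ᶠ N : ℕ in atTop, (N : ℝ) / (Real.log N) ^ B ≤ (common s (fun i => c i + e i) I N : ℝ)) ∧
      ∀ A : ℕ, ∀ᶠ N : ℕ in atTop, ∀ s c : Fin m → ℤ, (∀ i, IsCoprime (c i) (q : ℤ)) →
        Window A N s c →
        ∃ (e : Fin m → ℤ) (I : Finset (Fin m)), θ * m < I.card ∧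
          (∀ i, (q : ℤ) ∣ e i ∧ |e i| ≤ C * |s i|) ∧
          (∀ i j, i ≠ j → (s i, c i + e i) ≠ (s j, c j + e j)) ∧
          (N : ℝ) / (Real.log N) ^ B ≤ (common s (fun i => c i + e i) I N : ℝ)) := by
  rcases Pool.Agent.N679.TR.dicho θ hθ with hcol | hB
  swap
  · exact Or.inr hB
  left
  obtain ⟨Kf, Cf, Z, hKf, hZ, hcol⟩ := hcol
  intro k hk hkθ
  obtain ⟨C, M, D, E, hM, hD, h⟩ := Pool.Agent.N679.TR.thinL k (by linarith) (hKf _) hZ hcol
  have h1 : ∀ V : Finset ℤ, (∀ x ∈ V, (M : ℤ) ∣ x) →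
      (Pool.Agent.N679.TR.bad k C V : ℝ) ≤ (E + 1) * (V.card : ℝ) ^ ((k : ℝ) + 1 - (D : ℝ)⁻¹) :=
    fun V hV => Pool.Agent.N679.TR.hered hD (h V hV)
  have hD1 : (1 : ℝ) ≤ D := by exact_mod_cast hD
  have hδ0 : (0 : ℝ) < (D : ℝ)⁻¹ := by positivity
  have hδ1 : (D : ℝ)⁻¹ ≤ 1 := inv_le_one_of_one_le₀ hD1
  have hE0 : (0 : ℝ) ≤ (E : ℝ) + 1 := by positivity
  have hk1 : (1 : ℝ) ≤ (2 * (k : ℝ) + 1) ^ (k + 1) := by
    apply one_le_pow₀
    have : (0 : ℝ) ≤ k := Nat.cast_nonneg _
    linarith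
  refine ⟨C, M, hM, (D : ℝ)⁻¹, ((E : ℝ) + 1) * (2 * k + 1) ^ (k + 1) + k ^ 2 + k, hδ0, ?_, ?_⟩
  · intro V hV
    refine (h1 V hV).trans ?_
    apply mul_le_mul_of_nonneg_right _ (Real.rpow_nonneg (Nat.cast_nonneg _) _)
    have h2 : ((E : ℝ) + 1) * 1 ≤ ((E : ℝ) + 1) * (2 * k + 1) ^ (k + 1) :=
      mul_le_mul_of_nonneg_left hk1 hE0
    have h3 : (0 : ℝ) ≤ (k : ℝ) ^ 2 + k := by positivity
    linarith
  · intro N hN hMN T hT c hc
    exact Pool.Agent.N679.TR.box k C M (D : ℝ)⁻¹ ((E : ℝ) + 1) hδ0 hδ1 hE0 h1 N hN hMN T hT c hc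

end Pool.Agent.Results.MP_68a45e_nt.ThinExceptionsOrForms
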